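import Pool.Agent.Helper497.HS.Translate

set_option autoImplicit false

namespace Pool.Agent.Helper497.HS

theorem samp_LTF {ι κ : Type} [Fintype ι] [Fintype κ] (z : ι → ℤˣ) (c : ι → κ)
    (f : (ι → ℤˣ) → ℤˣ) (hf : IsLTF f) : IsLTF (fun u => f (samp z c u)) := by
  classical
  obtain ⟨w, θ, h⟩ := hf
  refine ⟨fun j => ∑ i with c i = j, w i * sv (z i), θ, fun u => ?_⟩
  show f (samp z c u) = _
  rw [h]
  congr 2
  simp only [lin, samp, Finset.sum_mul]
  rw [← Finset.sum_fiberwise (s := Finset.univ) (g := c)]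
  refine Finset.sum_congr rfl fun j _ => Finset.sum_congr rfl fun i hi => ?_
  rw [(Finset.mem_filter.mp hi).2, sv_mul]
  ring

end Pool.Agent.Helper497.HS

namespace Pool.Agent.Results.MP_cd40e2_lc.OneSided

open Pool.Agent.Helper497.HS (samp soundness samp_LTF Ex IsLTF)

/-- `sgn t = 1` for `t ≥ 0` and `sgn t = -1` otherwise (values in the group `ℤˣ = {1,-1}`). -/
noncomputable def sgn (t : ℝ) : ℤˣ := if 0 ≤ t then 1 else -1

/-- A halfspace (linear threshold function) on the cube `{-1,1}^n = (Fin n → ℤˣ)`. -/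
def IsHalfspace {n : ℕ} (f : (Fin n → ℤˣ) → ℤˣ) : Prop :=
  ∃ (w : Fin n → ℝ) (θ : ℝ), ∀ x, f x = sgn (∑ i, w i * ((x i : ℤ) : ℝ) - θ)

/-- `Pr_x[f x ≠ g x]` for `x` uniform on the cube. -/
noncomputable def dist {n : ℕ} (f g : (Fin n → ℤˣ) → ℤˣ) : ℝ :=
  (Nat.card {x : Fin n → ℤˣ // f x ≠ g x} : ℝ) / 2 ^ n

/-- A (non-adaptive) randomised algorithm that asks `q` queries to `f : {-1,1}^n → {-1,1}`: it
draws its coins `ω` uniformly from a finite nonempty set, asks the values of `f` at the `q` points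
`query ω 0, ..., query ω (q-1)`, and accepts iff the vector of the answers satisfies
`accept ω`. -/
structure Tester (n q : ℕ) where
  Coins : Type
  [fin : Finite Coins]
  [ne : Nonempty Coins]
  query : Coins → Fin q → (Fin n → ℤˣ)
  accept : Coins → (Fin q → ℤˣ) → Prop

/-- The probability that the tester `T` accepts the function `f`. -/
noncomputable def Tester.acceptProb {n q : ℕ} (T : Tester n q) (f : (Fin n → ℤˣ) → ℤˣ) : ℝ :=
  (Nat.card {ω : T.Coins // T.accept ω (fun k => f (T.query ω k))} : ℝ) / (Nat.card T.Coins : ℝ)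

theorem result : ∀ ε : ℝ, 0 < ε → ∃ q : ℕ, ∀ n : ℕ, ∃ T : Tester n q,
    (∀ f : (Fin n → ℤˣ) → ℤˣ, IsHalfspace f → T.acceptProb f = 1) ∧
    (∀ f : (Fin n → ℤˣ) → ℤˣ, (∀ g, IsHalfspace g → ε ≤ dist f g) →
      2 / 3 ≤ 1 - T.acceptProb f) := by
  classical
  intro ε hε
  obtain ⟨M, δ₀, hM, hδ₀, hs⟩ := soundness ε hε
  obtain ⟨R, hR⟩ : ∃ R : ℕ, (max (1 - δ₀) 0) ^ R < 1 / 3 :=
    exists_pow_lt_of_lt_one (by norm_num) (by
      rw [max_lt_iff]; constructor <;> linarith)
  refine ⟨Fintype.card (Fin R × (Fin M → ℤˣ)), fun n => ?_⟩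
  let e : Fin R × (Fin M → ℤˣ) ≃ Fin (Fintype.card (Fin R × (Fin M → ℤˣ))) := Fintype.equivFin _
  have : NeZero M := ⟨hM.ne'⟩
  have : Nonempty ((Fin n → ℤˣ) × (Fin n → Fin M)) := ⟨(fun _ => 1, fun _ => 0)⟩
  let T : Tester n (Fintype.card (Fin R × (Fin M → ℤˣ))) :=
    { Coins := Fin R → ((Fin n → ℤˣ) × (Fin n → Fin M))
      query := fun ω k => samp (ω (e.symm k).1).1 (ω (e.symm k).1).2 (e.symm k).2
      accept := fun ω ans => ∀ r, IsLTF (fun u => ans (e (r, u))) }
  have hacc : ∀ (f : (Fin n → ℤˣ) → ℤˣ) (ω : Fin R → ((Fin n → ℤˣ) × (Fin n → Fin M))),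
      T.accept ω (fun k => f (T.query ω k)) ↔
        ∀ r, IsLTF (fun u => f (samp (ω r).1 (ω r).2 u)) := by
    intro f ω
    simp [T]
  refine ⟨T, ?_, ?_⟩
  · intro f hf
    have hall : ∀ ω : T.Coins, T.accept ω (fun k => f (T.query ω k)) := by
      intro ω
      rw [hacc]
      intro r
      exact samp_LTF _ _ f hf
    unfold Tester.acceptProb
    rw [Nat.card_congr (Equiv.subtypeUnivEquiv hall), div_self]
    have := T.fin
    have := T.ne
    exact_mod_cast Nat.card_pos.ne'
  · intro f hf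
    have h1 : δ₀ ≤ Ex (fun zc : (Fin n → ℤˣ) × (Fin n → Fin M) =>
        if IsLTF (fun u => f (samp zc.1 zc.2 u)) then (0:ℝ) else 1) := by
      by_contra hlt
      push Not at hlt
      obtain ⟨g, hg, hgd⟩ := hs n f (by convert hlt)
      have h2 := hf g hg
      have h3 : dist f g = Ex (fun x => if f x = g x then (0:ℝ) else 1) := by
        unfold dist Ex
        rw [Nat.card_eq_fintype_card, Fintype.card_subtype, Finset.card_filter]
        congr 1
        · push_cast
          refine Finset.sum_congr rfl fun x _ => ?_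
          by_cases h : f x = g x <;> simp [h]
        · simp
      have h4 : Ex (fun x => if f x = g x then (0:ℝ) else 1) < ε := by convert hgd
      rw [h3] at h2
      linarith
    set p : ℝ := (Nat.card {zc : (Fin n → ℤˣ) × (Fin n → Fin M) // IsLTF (fun u => f (samp zc.1 zc.2 u))} : ℝ)
      / (Nat.card ((Fin n → ℤˣ) × (Fin n → Fin M)) : ℝ) with hp
    have h2 : p ≤ max (1 - δ₀) 0 := by
      have hc : (0:ℝ) < (Fintype.card ((Fin n → ℤˣ) × (Fin n → Fin M)) : ℝ) := by
        exact_mod_cast Fintype.card_pos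
      have h4 : Ex (fun zc : (Fin n → ℤˣ) × (Fin n → Fin M) =>
        if IsLTF (fun u => f (samp zc.1 zc.2 u)) then (0:ℝ) else 1) = 1 - p := by
        unfold Ex
        rw [hp, Nat.card_eq_fintype_card, Nat.card_eq_fintype_card, Fintype.card_subtype,
          eq_sub_iff_add_eq, ← add_div, div_eq_one_iff_eq hc.ne', Finset.card_filter]
        push_cast
        rw [← Finset.sum_add_distrib]
        have : ∀ zc ∈ (Finset.univ : Finset ((Fin n → ℤˣ) × (Fin n → Fin M))),
            ((if IsLTF (fun u => f (samp zc.1 zc.2 u)) then (0:ℝ) else 1)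
              + (if IsLTF (fun u => f (samp zc.1 zc.2 u)) then (1:ℝ) else 0)) = 1 := by
          intro zc _
          split_ifs <;> norm_num
        rw [Finset.sum_congr rfl this]
        simp
      rw [h4] at h1
      exact le_max_of_le_left (by linarith)
    have h5 : T.acceptProb f = p ^ R := by
      unfold Tester.acceptProb
      have e1 : {ω : T.Coins // T.accept ω (fun k => f (T.query ω k))}
          ≃ {ω : Fin R → ((Fin n → ℤˣ) × (Fin n → Fin M)) //
              ∀ r, IsLTF (fun u => f (samp (ω r).1 (ω r).2 u))} :=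
        Equiv.subtypeEquivRight (hacc f)
      have e2 : {ω : Fin R → ((Fin n → ℤˣ) × (Fin n → Fin M)) //
              ∀ r, IsLTF (fun u => f (samp (ω r).1 (ω r).2 u))}
          ≃ (Fin R → {zc : (Fin n → ℤˣ) × (Fin n → Fin M) // IsLTF (fun u => f (samp zc.1 zc.2 u))}) :=
        Equiv.subtypePiEquivPi (p := fun (_ : Fin R) (zc : (Fin n → ℤˣ) × (Fin n → Fin M)) =>
          IsLTF (fun u => f (samp zc.1 zc.2 u)))
      rw [Nat.card_congr (e1.trans e2), Nat.card_fun, Nat.card_fun]
      simp only [Nat.cast_pow, Nat.card_fin, Nat.card_eq_fintype_card (α := Fin R), Fintype.card_fin]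
      rw [hp, div_pow]
    have h6 : T.acceptProb f ≤ (max (1 - δ₀) 0) ^ R := by
      rw [h5]
      have : 0 ≤ p := by positivity
      gcongr
    linarith

end Pool.Agent.Results.MP_cd40e2_lc.OneSided
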